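import Pool.Agent.helper97.TQ6.Seam
import Pool.Agent.helper17.TQ6.OL

set_option autoImplicit false

/-!
# Two-queue graphs: the top-down choice of the hits
-/

namespace Pool.Agent.helper97.TQ6

theorem fromS {P : ℕ → ℕ} {a m e : ℕ} {S : Set ℕ} {fl fu : ℕ → Fin 4} (L : Lvl P a m e S fl fu)
    {u : ℕ} (h1 : P a ≤ u) (h2 : u < e) (h3 : fu u ≠ 3) : ∃ s ∈ S, s ≤ u := by
  induction u with
  | zero =>
    have h4 : P a = 0 := by omega
    exact absurd (h4 ▸ L.begu) h3
  | succ u ih =>
    by_cases h4 : u + 1 ∈ S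
    · exact ⟨u + 1, h4, le_rfl⟩
    · by_cases h5 : u ∈ S
      · exact ⟨u, h5, by omega⟩
      · by_cases h6 : P a = u + 1
        · exact absurd (h6 ▸ L.begu) h3
        · have h7 : P a ≤ u := by omega
          have h8 := L.gap u h7 h2 h5 h4
          obtain ⟨s, hs, hsu⟩ := ih h7 (by omega) (fun h => h3 (h8.1 h))
          exact ⟨s, hs, by omega⟩

section
variable {p : ℕ → ℕ} (hp : Monotone p) (hw : ∀ x, x + 3 ≤ p x)
include hp hw

theorem pp_mono (j : ℕ) : Monotone (PP p j) := by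
  intro v w h
  have h1 : p (sg p (j + 1)) ≤ sg p (j + 2) + 1 := (sg_p hp hw (j + 1)).2
  unfold PP
  split_ifs with h2 h3
  · exact hp h
  · have h4 : p v ≤ p (sg p (j + 1)) := hp (by omega)
    omega
  · omega
  · exact le_rfl

theorem down (j : ℕ) (S : Set ℕ) (hS : Adm p (j + 1) S) : ∃ (S' : Set ℕ) (fl fu : ℕ → Fin 4),
    Adm p j S' ∧ Lvl (PP p j) (sg p j) (sg p (j + 1) - 1) (sg p (j + 2)) S fl fu ∧
      S' = {l | sg p j ≤ l ∧ l < sg p (j + 1) ∧ fl l = 3} := by
  have h1 := sg_step hp hw j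
  have h2 : sg p (j + 1) + 2 ≤ sg p (j + 2) := sg_step hp hw (j + 1)
  have h3 := sg_p hp hw j
  have h4 : sg p (j + 2) ≤ p (sg p (j + 1)) ∧ p (sg p (j + 1)) ≤ sg p (j + 2) + 1 :=
    sg_p hp hw (j + 1)
  have hhi : ∀ v ∈ S, v + 1 < sg p (j + 2) := hS.hi
  have hPa : PP p j (sg p j) = p (sg p j) := by
    unfold PP
    rw [if_pos (by omega)]
  have hm : sg p (j + 1) - 1 + 1 = sg p (j + 1) := by omega
  have hend : PP p j (sg p (j + 1) - 1 + 1) = sg p (j + 2) + 1 := by
    unfold PP
    rw [hm, if_neg (lt_irrefl _)]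
  obtain ⟨fl, fu, L⟩ := ol (PP p j) (pp_mono hp hw j) (sg p j) (sg p (j + 1) - 1) (sg p (j + 2))
    (by omega) hend (by rw [hPa]; omega) S (by
      intro u hu
      have := ls_start hp hw (hS.ls u hu) (hS.lo u hu)
      have := hhi u hu
      rw [hPa]
      omega) hS.nc
  have hcr : ∀ v, sg p j ≤ v → v < sg p (j + 1) → fl v = 3 → fu (p v) ≠ 3 := by
    intro v hv1 hv2 hv3 hv4
    have hPv : PP p j v = p v := by
      unfold PP
      rw [if_pos hv2]
    refine L.cross v (p v) hv1 (by omega) hPv.le ?_ (by rw [hv3, hv4])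
    rw [← hPv]
    exact pp_mono hp hw j (by omega)
  refine ⟨{l | sg p j ≤ l ∧ l < sg p (j + 1) ∧ fl l = 3}, fl, fu, ?_, L, rfl⟩
  refine ⟨?_, ?_, ?_, ?_⟩
  · rintro v ⟨hv1, hv2, hv3⟩
    by_contra hlt
    rw [not_lt] at hlt
    have h5 : p v ≤ sp p (j + 1) := by
      have := hp hlt
      rwa [show p (sp p j) = sp p (j + 1) from (Function.iterate_succ_apply' p j 0).symm] at this
    have h6 : sp p (j + 1) < sg p (j + 2) := sp_lt hp hw (j + 1)
    obtain ⟨s, hs, hsu⟩ := fromS L (u := p v) (by rw [hPa]; exact hp hv1) (by omega)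
      (hcr v hv1 hv2 hv3)
    have := hS.lo s hs
    omega
  · rintro v ⟨hv1, hv2, hv3⟩
    have h5 : v ≠ sg p (j + 1) - 1 := by
      rintro rfl
      exact L.endl hv3
    omega
  · rintro v ⟨hv1, hv2, hv3⟩
    refine ls_back hp hw ?_
    have h5 := hcr v hv1 hv2 hv3
    have h6 : p v ≤ p (sg p (j + 1)) := hp hv2.le
    rcases lt_trichotomy (p v) (sg p (j + 2)) with h7 | h7 | h7
    · obtain ⟨s, hs, hsu⟩ := fromS L (u := p v) (by rw [hPa]; exact hp hv1) h7 h5
      have h8 := sg_le hp hw (j + 2)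
      exact ls_up hp hw (hS.ls s hs) hsu (show p v ≤ sp p (j + 2) by omega)
    · rw [h7]
      exact ls_sg hp hw (j + 1)
    · have h8 : p (sg p (j + 1)) = sg p (j + 2) + 1 := by omega
      have h9 : sp p (j + 2) = sg p (j + 2) + 1 := p_sg_eq hp hw (j + 1) h8
      refine ⟨0, ?_⟩
      have : p v = sp p (j + 2) := by omega
      simpa using this
  · rintro v ⟨hv1, hv2, hv3⟩ ⟨hv4, hv5, hv6⟩
    exact L.l1 v hv1 (by omega) (hv3.trans hv6.symm)

theorem tow (J : ℕ) : ∃ S fl fu, Tow p J S fl fu := by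
  have key : ∀ k, k ≤ J → ∃ (S : ℕ → Set ℕ) (fl fu : ℕ → ℕ → Fin 4),
      (∀ j, J - k ≤ j → j ≤ J → Adm p j (S j)) ∧
      (∀ j, J - k ≤ j → j < J →
        Lvl (PP p j) (sg p j) (sg p (j + 1) - 1) (sg p (j + 2)) (S (j + 1)) (fl j) (fu j) ∧
        S j = {l | sg p j ≤ l ∧ l < sg p (j + 1) ∧ fl j l = 3}) := by
    intro k
    induction k with
    | zero =>
      intro _
      refine ⟨fun _ => ∅, fun _ _ => 0, fun _ _ => 0, ?_, ?_⟩
      · intro j _ _
        exact ⟨fun v hv => hv.elim, fun v hv => hv.elim, fun v hv => hv.elim,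
          fun v hv => hv.elim⟩
      · intro j h1 h2
        omega
    | succ k ih =>
      intro hk
      obtain ⟨S, fl, fu, h1, h2⟩ := ih (by omega)
      obtain ⟨i, hi⟩ : ∃ i, J - (k + 1) = i ∧ J - k = i + 1 := ⟨J - (k + 1), rfl, by omega⟩
      obtain ⟨S', gl, gu, h3, h4, h5⟩ := down hp hw i (S (i + 1)) (h1 (i + 1) (by omega) (by omega))
      refine ⟨Function.update S i S', Function.update fl i gl, Function.update fu i gu, ?_, ?_⟩
      · intro j hj1 hj2
        by_cases hj : j = i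
        · subst hj
          rw [Function.update_self]
          exact h3
        · rw [Function.update_of_ne hj]
          exact h1 j (by omega) hj2
      · intro j hj1 hj2
        by_cases hj : j = i
        · subst hj
          rw [Function.update_self, Function.update_self, Function.update_self,
            Function.update_of_ne (by omega)]
          exact ⟨h4, h5⟩
        · rw [Function.update_of_ne hj, Function.update_of_ne hj, Function.update_of_ne hj,
            Function.update_of_ne (show j + 1 ≠ i by omega)]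
          exact h2 j (by omega) hj2
  obtain ⟨S, fl, fu, h1, h2⟩ := key J le_rfl
  exact ⟨S, fl, fu, fun j hj => h1 j (by omega) hj, fun j hj => (h2 j (by omega) hj).1,
    fun j hj => (h2 j (by omega) hj).2⟩

end
end Pool.Agent.helper97.TQ6
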