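import Pool.Agent.helper97.TQ6.Seam
import Pool.Agent.helper33.TQ6.Rl
import Pool.Agent.helper2.TQ6.E1

set_option autoImplicit false

/-!
# Two-queue graphs: the final level graphs are 3-colourable
-/

namespace Pool.Agent.helper97.TQ6

theorem Good.mono {p : ℕ → ℕ} {a b : ℕ} {Xl U Xl' U' : Set ℕ} {c : ℕ → ZMod 3}
    (h : Good p a b Xl U c) (h1 : Xl ⊆ Xl') (h2 : U' ⊆ U) : Good p a b Xl' U' c :=
  ⟨fun x y ha h3 h4 h5 h6 h7 => h.low x y ha h3 h4 h5 (fun h => h6 (h1 h)) (fun h => h7 (h1 h)),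
    fun x y h3 h4 h5 h6 => h.up x y h3 h4 (h2 h5) (h2 h6),
    fun x y ha hb h3 h4 h5 h6 => h.cross x y ha hb (fun h => h3 (h1 h)) (h2 h4) h5 h6⟩

/-- the colour of a state -/
def col : Fin 4 → ZMod 3 := ![0, 1, 2, 0]

theorem col_ne : ∀ x y : Fin 4, x ≠ 3 → y ≠ 3 → x ≠ y → col x ≠ col y := by decide

section
variable {p : ℕ → ℕ} (hp : Monotone p) (hw : ∀ x, x + 3 ≤ p x)
include hp hw

theorem xx_sub {J : ℕ} {S : ℕ → Set ℕ} {fl fu : ℕ → ℕ → Fin 4} (T : Tow p J S fl fu) {j : ℕ}
    (hj : j ≤ J) : S j ⊆ XX p S fu j := by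
  intro s hs
  cases j with
  | zero => exact hs
  | succ i =>
    have h1 := (T.lvl i (by omega)).inS s hs
    have h2 := (T.adm (i + 1) hj).ls s hs
    have h3 := (T.adm (i + 1) hj).lo s hs
    have h4 : s + 1 < sg p (i + 2) := (T.adm (i + 1) hj).hi s hs
    have h5 := ls_start hp hw h2 h3
    have h6 := sg_p hp hw i
    exact ⟨by omega, by omega, Or.inl h1⟩

theorem base {J : ℕ} {S : ℕ → Set ℕ} {fl fu : ℕ → ℕ → Fin 4} (T : Tow p J S fl fu) {j : ℕ}
    (hj : j < J) : ∃ c, Good p (sg p j) (sg p (j + 1)) (S j)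
      ({u | p (sg p j) ≤ u ∧ u < sg p (j + 2) ∧ fu j u ≠ 3} ∪ {sg p (j + 2), sg p (j + 2) + 1}) c := by
  have L := T.lvl j hj
  have h1 := sg_step hp hw j
  have h2 : sg p (j + 1) + 2 ≤ sg p (j + 2) := sg_step hp hw (j + 1)
  have h3 := sg_p hp hw j
  have hPa : PP p j (sg p j) = p (sg p j) := by
    unfold PP
    rw [if_pos (by omega)]
  have hU : ∀ u, u ∈ ({u | p (sg p j) ≤ u ∧ u < sg p (j + 2) ∧ fu j u ≠ 3} ∪
      {sg p (j + 2), sg p (j + 2) + 1} : Set ℕ) → p (sg p j) ≤ u ∧ u ≤ sg p (j + 2) + 1 ∧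
      fu j u ≠ 3 := by
    rintro u (⟨h4, h5, h6⟩ | h4)
    · exact ⟨h4, by omega, h6⟩
    · rcases h4 with h4 | h4
      · rw [h4]
        exact ⟨by omega, by omega, L.ende⟩
      · rw [Set.mem_singleton_iff] at h4
        rw [h4]
        exact ⟨by omega, by omega, L.ende1⟩
  have hl : ∀ x, sg p j ≤ x → x < sg p (j + 1) → x ∉ S j → fl j x ≠ 3 := by
    intro x h4 h5 h6 h7
    apply h6
    rw [T.eq j hj]
    exact ⟨h4, h5, h7⟩
  refine ⟨fun x => if x < sg p (j + 1) then col (fl j x) else col (fu j x), ?_, ?_, ?_⟩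
  · intro x y h4 h5 h6 h7 h8 h9
    rw [if_pos (by omega), if_pos h7]
    refine col_ne _ _ (hl x h4 (by omega) h8) (hl y (by omega) h7 h9) ?_
    intro h10
    obtain h11 | h11 : y = x + 1 ∨ y = x + 2 := by omega
    · subst h11
      exact L.l1 x h4 (by omega) h10
    · subst h11
      exact hl x h4 (by omega) h8 (L.l2 x h4 (by omega) h10)
  · intro x y h4 h5 h6 h7
    have h8 := hU x h6
    have h9 := hU y h7
    rw [if_neg (by omega), if_neg (by omega)]
    refine col_ne _ _ h8.2.2 h9.2.2 ?_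
    intro h10
    obtain h11 | h11 : y = x + 1 ∨ y = x + 2 := by omega
    · subst h11
      exact h8.2.2 (L.u1 x (by rw [hPa]; exact h8.1) (by omega) h10)
    · subst h11
      exact h8.2.2 (L.u2 x (by rw [hPa]; exact h8.1) (by omega) h10)
  · intro x y h4 h5 h6 h7 h8 h9
    have h10 := hU y h7
    rw [if_pos h5, if_neg (by omega)]
    refine col_ne _ _ (hl x h4 h5 h6) h10.2.2 ?_
    refine L.cross x y h4 (by omega) ?_ ?_
    · unfold PP
      rw [if_pos h5]
      exact h8
    · unfold PP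
      split_ifs
      · exact h9
      · exact h10.2.1

theorem xx_good {J : ℕ} {S : ℕ → Set ℕ} {fl fu : ℕ → ℕ → Fin 4} (T : Tow p J S fl fu) {j : ℕ}
    (hj : j < J) : ∃ c, Good p (sg p j) (sg p (j + 1)) (XX p S fu j)
      (XX p S fu (j + 1) ∪ {sg p (j + 2), sg p (j + 2) + 1}) c := by
  classical
  have L := T.lvl j hj
  have A := T.adm j hj.le
  have h1 := sg_step hp hw j
  have h2 : sg p (j + 1) + 2 ≤ sg p (j + 2) := sg_step hp hw (j + 1)
  have h3 := sg_p hp hw j
  have h4 : sg p (j + 2) ≤ p (sg p (j + 1)) ∧ p (sg p (j + 1)) ≤ sg p (j + 2) + 1 :=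
    sg_p hp hw (j + 1)
  -- cross for hits
  have hcr : ∀ v ∈ S j, ∀ u, p v ≤ u → u ≤ p (v + 1) → fu j u ≠ 3 := by
    intro v hv u h5 h6 h7
    rw [T.eq j hj] at hv
    obtain ⟨hv1, hv2, hv3⟩ := hv
    refine L.cross v u hv1 (by omega) ?_ ?_ (by rw [hv3, h7])
    · unfold PP
      rw [if_pos hv2]
      exact h5
    · unfold PP
      split_ifs with h8
      · exact h6
      · have : v + 1 = sg p (j + 1) := by omega
        rw [this] at h6
        omega
  set U0 : Set ℕ := {u | p (sg p j) ≤ u ∧ u < sg p (j + 2) ∧ fu j u ≠ 3} ∪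
      {sg p (j + 2), sg p (j + 2) + 1} with hU0
  have hU0b : ∀ u ∈ U0, sg p (j + 1) ≤ u := by
    rintro u (⟨h5, h6, h7⟩ | h5)
    · omega
    · rcases h5 with h5 | h5
      · omega
      · rw [Set.mem_singleton_iff] at h5
        omega
  -- membership in U0 of the ends of the windows of hits
  have hin : ∀ v ∈ S j, ∀ u, p v ≤ u → u ≤ p (v + 1) → u ∈ U0 := by
    intro v hv u h5 h6
    have h7 := hcr v hv u h5 h6
    have hv' := hv
    rw [T.eq j hj] at hv'
    obtain ⟨hv1, hv2, hv3⟩ := hv'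
    have h8 : p (sg p j) ≤ p v := hp hv1
    have h9 : p (v + 1) ≤ p (sg p (j + 1)) := hp hv2
    by_cases h10 : u < sg p (j + 2)
    · exact Or.inl ⟨by omega, h10, h7⟩
    · right
      obtain h11 | h11 : u = sg p (j + 2) ∨ u = sg p (j + 2) + 1 := by omega
      · exact Or.inl h11
      · exact Or.inr h11
  -- next element
  obtain ⟨nx, hnx, hnx2⟩ : ∃ nx : ℕ → ℕ,
      (∀ s, s < sg p (j + 1) → s < nx s ∧ (nx s ∈ S j ∨ nx s = sg p (j + 1))) ∧
      (∀ s t, s < t → (t ∈ S j ∨ t = sg p (j + 1)) → nx s ≤ t) := by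
    refine ⟨fun s => sInf {t | s < t ∧ (t ∈ S j ∨ t = sg p (j + 1))}, ?_, ?_⟩
    · intro s hs
      exact Nat.sInf_mem (s := {t | s < t ∧ (t ∈ S j ∨ t = sg p (j + 1))}) ⟨_, hs, Or.inr rfl⟩
    · intro s t h5 h6
      exact Nat.sInf_le ⟨h5, h6⟩
  have hSlt : ∀ s ∈ S j, s + 1 < sg p (j + 1) := A.hi
  have hSge : ∀ s ∈ S j, sg p j ≤ s := by
    intro s hs
    rw [T.eq j hj] at hs
    exact hs.1
  -- iteration
  have key : ∀ Γ : Finset ℕ, (∀ s ∈ Γ, s ∈ S j) →
      ∃ c, Good p (sg p j) (sg p (j + 1)) (S j ∪ {x | ∃ s ∈ Γ, s < x ∧ x < nx s})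
        (U0 ∪ {u | ∃ s ∈ Γ, p (s + 1) ≤ u ∧ u ≤ p (nx s)}) c := by
    intro Γ
    induction Γ using Finset.induction_on with
    | empty =>
      intro _
      obtain ⟨c, hc⟩ := base hp hw T hj
      refine ⟨c, hc.mono Set.subset_union_left ?_⟩
      rintro u (hu | ⟨s, hs, _⟩)
      · exact hu
      · simp at hs
    | insert s Γ hs ih =>
      intro hΓ
      obtain ⟨c, hc⟩ := ih (fun t ht => hΓ t (Finset.mem_insert_of_mem ht))
      have hsS := hΓ s (Finset.mem_insert_self _ _)
      have h5 := hSlt s hsS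
      have h6 := hnx s (by omega)
      have h7 : nx s ≤ sg p (j + 1) := hnx2 s _ (by omega) (Or.inr rfl)
      obtain ⟨c', hc'⟩ := rl hp hc (s := s) (s' := nx s) (by
          rintro u (hu | ⟨t, ht, hu1, hu2⟩)
          · exact hU0b u hu
          · have h8 := hin t (hΓ t (Finset.mem_insert_of_mem ht)) (p (t + 1)) (hp (by omega)) le_rfl
            have h9 := hU0b _ h8
            omega) (hSge s hsS) h6.1 h7 (Or.inl hsS) (h6.2.imp Or.inl id)
        (Or.inl (hin s hsS _ (hp (by omega)) le_rfl)) (by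
          left
          rcases h6.2 with h8 | h8
          · exact hin _ h8 _ le_rfl (hp (by omega))
          · rw [h8]
            right
            obtain h9 | h9 : p (sg p (j + 1)) = sg p (j + 2) ∨
              p (sg p (j + 1)) = sg p (j + 2) + 1 := by omega
            · exact Or.inl h9
            · exact Or.inr h9)
      refine ⟨c', hc'.mono ?_ ?_⟩
      · rintro x ((hx | ⟨t, ht, hx⟩) | hx)
        · exact Or.inl hx
        · exact Or.inr ⟨t, Finset.mem_insert_of_mem ht, hx⟩
        · exact Or.inr ⟨s, Finset.mem_insert_self _ _, hx⟩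
      · rintro x (hx | ⟨t, ht, hx⟩)
        · exact Or.inl (Or.inl hx)
        · rcases Finset.mem_insert.1 ht with ht | ht
          · rw [ht] at hx
            exact Or.inr hx
          · exact Or.inl (Or.inr ⟨t, ht, hx⟩)
  obtain ⟨c, hc⟩ := key ((Finset.range (sg p (j + 1))).filter
    (fun s => s ∈ S j ∧ s + 1 ∈ XX p S fu j)) (fun s hs => (Finset.mem_filter.1 hs).2.1)
  refine ⟨c, hc.mono ?_ ?_⟩
  · rintro x (hx | ⟨s, hs, hx1, hx2⟩)
    · exact xx_sub hp hw T hj.le hx
    · obtain ⟨hs1, hs2, hs3⟩ := Finset.mem_filter.1 hs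
      have h5 := hSlt s hs2
      have h7 : nx s ≤ sg p (j + 1) := hnx2 s _ (by omega) (Or.inr rfl)
      have h8 := hSge s hs2
      have h9 : ∀ k, s + 1 + k < nx s → s + 1 + k ∈ XX p S fu j := by
        intro k
        induction k with
        | zero => exact fun _ => hs3
        | succ k ih =>
          intro hk
          have h10 := ih (by omega)
          refine (xx_gap hp hw T hj.le (x := s + 1 + k) (by omega) (by omega) ?_ ?_).1 h10
          · intro h11
            have := hnx2 s (s + 1 + k) (by omega) (Or.inl h11)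
            omega
          · intro h11
            have := hnx2 s (s + 1 + k + 1) (by omega) (Or.inl h11)
            omega
      obtain ⟨k, rfl⟩ : ∃ k, x = s + 1 + k := ⟨x - (s + 1), by omega⟩
      exact h9 k hx2
  · rintro u (⟨hu1, hu2, hu3⟩ | hu)
    · by_cases h5 : fu j u = 3
      · right
        obtain ⟨v, hv, hv1, hv2⟩ := hu3.resolve_left (fun h => h h5)
        have hvS : v ∉ S j := fun h => hcr v h u hv1 hv2 h5
        obtain ⟨s0, hs0, hs0v⟩ := xx_ex hp hw T hj.le hv
        have hvlt := (xx_lo hp hw T hj.le hv).2.1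
        -- the largest element of `S j` below `v`
        obtain ⟨s, hs, hsv, hmax⟩ : ∃ s ∈ S j, s ≤ v ∧ ∀ t ∈ S j, t ≤ v → t ≤ s := by
          obtain ⟨s, hs, hm⟩ := ((Finset.range (v + 1)).filter (fun s => s ∈ S j)).exists_max_image
            id ⟨s0, Finset.mem_filter.2 ⟨Finset.mem_range.2 (by omega), hs0⟩⟩
          obtain ⟨hs1, hs2⟩ := Finset.mem_filter.1 hs
          rw [Finset.mem_range] at hs1
          exact ⟨s, hs2, by omega, fun t ht htv =>
            hm t (Finset.mem_filter.2 ⟨Finset.mem_range.2 (by omega), ht⟩)⟩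
        have hsv' : s < v := lt_of_le_of_ne hsv (fun h => hvS (h ▸ hs))
        have h6 := hSlt s hs
        have h7 : v < nx s := by
          obtain ⟨h8, h9⟩ := hnx s (by omega)
          by_contra h10
          rcases h9 with h9 | h9
          · have := hmax _ h9 (by omega)
            omega
          · omega
        have h8 : ∀ k, s + 1 + k ≤ v → v - k ∈ XX p S fu j := by
          intro k
          induction k with
          | zero => exact fun _ => hv
          | succ k ih =>
            intro hk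
            have h10 := ih (by omega)
            obtain ⟨w, hw'⟩ : ∃ w, v - (k + 1) = w ∧ v - k = w + 1 := ⟨_, rfl, by omega⟩
            rw [hw'.1]
            rw [hw'.2] at h10
            have h11 := hSge s hs
            refine (xx_gap hp hw T hj.le (by omega) (by omega) ?_ ?_).2 h10
            · intro h12
              have := hmax w h12 (by omega)
              omega
            · intro h12
              have := hmax (w + 1) h12 (by omega)
              omega
        have h9 := h8 (v - (s + 1)) (by omega)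
        rw [show v - (v - (s + 1)) = s + 1 by omega] at h9
        refine ⟨s, Finset.mem_filter.2 ⟨Finset.mem_range.2 (by omega), hs, h9⟩, ?_, ?_⟩
        · exact (hp (show s + 1 ≤ v by omega)).trans hv1
        · exact hv2.trans (hp (by omega))
      · exact Or.inl (Or.inl ⟨hu1, hu2, h5⟩)
    · exact Or.inl (Or.inr hu)

end
end Pool.Agent.helper97.TQ6
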