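import Mathlib

set_option autoImplicit false

/-!
# Two-queue graphs are six-colourable: definitions

Rows `[sg j, sg (j+1))`; row `j` has palette `j mod 2` (three colours each), except that the
vertices of `X j` (switched) have the palette of row `j - 1`.
-/

namespace Pool.Agent.helper97.TQ6

/-- One level: lower vertices `a..m`, upper vertices `P a..e+1`, long edges `l - u` for
`P l ≤ u ≤ P (l+1)`.  `fl l = 3`: the lower vertex `l` is switched; `fu u = 3`: the upper vertex `u`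
is not switched; the other values are the colours. -/
structure Lvl (P : ℕ → ℕ) (a m e : ℕ) (S : Set ℕ) (fl fu : ℕ → Fin 4) : Prop where
  endl : fl m ≠ 3
  begu : fu (P a) = 3
  ende : fu e ≠ 3
  ende1 : fu (e + 1) ≠ 3
  l1 : ∀ l, a ≤ l → l + 1 ≤ m → fl l ≠ fl (l + 1)
  l2 : ∀ l, a ≤ l → l + 2 ≤ m → fl l = fl (l + 2) → fl l = 3
  inS : ∀ u ∈ S, fu u ≠ 3
  u1 : ∀ u, P a ≤ u → u + 1 ≤ e + 1 → fu u = fu (u + 1) → fu u = 3
  u2 : ∀ u, P a ≤ u → u + 2 ≤ e + 1 → fu u = fu (u + 2) → fu u = 3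
  gap : ∀ u, P a ≤ u → u + 1 < e → u ∉ S → u + 1 ∉ S → (fu u = 3 ↔ fu (u + 1) = 3)
  cross : ∀ l u, a ≤ l → l ≤ m → P l ≤ u → u ≤ P (l + 1) → fl l ≠ fu u

/-- a proper 3-colouring of the level graph: lower vertices `[a, b) \ Xl`, upper vertices `U` -/
structure Good (p : ℕ → ℕ) (a b : ℕ) (Xl U : Set ℕ) (c : ℕ → ZMod 3) : Prop where
  low : ∀ x y, a ≤ x → x < y → y ≤ x + 2 → y < b → x ∉ Xl → y ∉ Xl → c x ≠ c y
  up : ∀ x y, x < y → y ≤ x + 2 → x ∈ U → y ∈ U → c x ≠ c y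
  cross : ∀ x y, a ≤ x → x < b → x ∉ Xl → y ∈ U → p x ≤ y → y ≤ p (x + 1) → c x ≠ c y

/-- the spine `0, p 0, p (p 0), …` -/
def sp (p : ℕ → ℕ) (j : ℕ) : ℕ := p^[j] 0

/-- `v` is a left-side vertex of row `j`: its orbit joins the spine one turn later -/
def LS (p : ℕ → ℕ) (j v : ℕ) : Prop := ∃ t, p^[t] v = sp p (j + t + 1)

open Classical in
/-- the seam -/
noncomputable def sg (p : ℕ → ℕ) : ℕ → ℕ
  | 0 => 0
  | j + 1 => if LS p (j + 1) (sp p (j + 1) + 1) then min (p (sg p j)) (sp p (j + 1) - 1)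
      else p (sg p j)

/-- the staircase of level `j` with the last step prolonged to the second root -/
noncomputable def PP (p : ℕ → ℕ) (j v : ℕ) : ℕ :=
  if v < sg p (j + 1) then p v else sg p (j + 2) + 1

/-- admissible sets of hits in row `j` -/
structure Adm (p : ℕ → ℕ) (j : ℕ) (S : Set ℕ) : Prop where
  lo : ∀ v ∈ S, sp p j < v
  hi : ∀ v ∈ S, v + 1 < sg p (j + 1)
  ls : ∀ v ∈ S, LS p j v
  nc : ∀ v ∈ S, v + 1 ∉ S

/-- the whole top-down choice for the rows `j ≤ J` -/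
structure Tow (p : ℕ → ℕ) (J : ℕ) (S : ℕ → Set ℕ) (fl fu : ℕ → ℕ → Fin 4) : Prop where
  adm : ∀ j ≤ J, Adm p j (S j)
  lvl : ∀ j < J, Lvl (PP p j) (sg p j) (sg p (j + 1) - 1) (sg p (j + 2)) (S (j + 1)) (fl j) (fu j)
  eq : ∀ j < J, S j = {l | sg p j ≤ l ∧ l < sg p (j + 1) ∧ fl j l = 3}

/-- the final sets of switched vertices -/
def XX (p : ℕ → ℕ) (S : ℕ → Set ℕ) (fu : ℕ → ℕ → Fin 4) : ℕ → Set ℕ
  | 0 => S 0
  | j + 1 => {u | p (sg p j) ≤ u ∧ u < sg p (j + 2) ∧ (fu j u ≠ 3 ∨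
      ∃ v ∈ XX p S fu j, p v ≤ u ∧ u ≤ p (v + 1))}

end Pool.Agent.helper97.TQ6
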