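import Pool.Agent.helper97.TQ6.Defs

set_option autoImplicit false

/-!
# Two-queue graphs: the seam
-/

namespace Pool.Agent.helper97.TQ6

section C
variable {p : ℕ → ℕ}

theorem sp_succ (j : ℕ) : sp p (j + 1) = p (sp p j) := by
  unfold sp
  rw [Function.iterate_succ_apply']

open Classical in
theorem sg_succ (j : ℕ) : sg p (j + 1) =
    if LS p (j + 1) (sp p (j + 1) + 1) then min (p (sg p j)) (sp p (j + 1) - 1)
      else p (sg p j) := by
  conv_lhs => rw [sg]

theorem iter_sp (t j : ℕ) : p^[t] (sp p j) = sp p (j + t) := by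
  unfold sp
  rw [← Function.iterate_add_apply, Nat.add_comm]

variable (hp : Monotone p) (hw : ∀ x, x + 3 ≤ p x)
include hp hw

theorem sg_le (j : ℕ) : sg p j ≤ sp p j := by
  induction j with
  | zero => exact le_rfl
  | succ j ih =>
    have h1 : p (sg p j) ≤ sp p (j + 1) := by rw [sp_succ]; exact hp ih
    rw [sg_succ]
    split_ifs
    · exact (min_le_left _ _).trans h1
    · exact h1

theorem sg_p (j : ℕ) : sg p (j + 1) ≤ p (sg p j) ∧ p (sg p j) ≤ sg p (j + 1) + 1 := by
  have h1 : p (sg p j) ≤ sp p (j + 1) := by rw [sp_succ]; exact hp (sg_le hp hw j)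
  rw [sg_succ]
  split_ifs
  · omega
  · omega

theorem p_sg_eq (j : ℕ) (h : p (sg p j) = sg p (j + 1) + 1) : sp p (j + 1) = sg p (j + 1) + 1 := by
  have h1 : p (sg p j) ≤ sp p (j + 1) := by rw [sp_succ]; exact hp (sg_le hp hw j)
  have h2 := hw (sp p j)
  rw [← sp_succ (p := p)] at h2
  rw [sg_succ] at h ⊢
  split_ifs at h ⊢
  · omega
  · omega

theorem sg_step (j : ℕ) : sg p j + 2 ≤ sg p (j + 1) := by
  have h1 := (sg_p hp hw j).2
  have h2 := hw (sg p j)
  omega

theorem ls_back {j v : ℕ} (h : LS p (j + 1) (p v)) : LS p j v := by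
  obtain ⟨t, ht⟩ := h
  refine ⟨t + 1, ?_⟩
  rw [Function.iterate_succ_apply, ht]
  congr 1
  omega

theorem ls_up {j v x : ℕ} (h : LS p j v) (h1 : v ≤ x) (h2 : x ≤ sp p (j + 1)) : LS p j x := by
  obtain ⟨t, ht⟩ := h
  refine ⟨t, le_antisymm ?_ ?_⟩
  · have h3 := (hp.iterate t) h2
    rw [iter_sp] at h3
    rw [show j + t + 1 = j + 1 + t by omega]
    exact h3
  · rw [← ht]
    exact (hp.iterate t) h1

theorem ls_start {j v : ℕ} (h : LS p (j + 1) v) (h1 : sp p (j + 1) < v) :
    sg p (j + 1) + 2 ≤ v := by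
  have h2 := sg_le hp hw (j + 1)
  rcases Nat.lt_or_ge (sp p (j + 1) + 1) v with h3 | h3
  · omega
  · have h4 : v = sp p (j + 1) + 1 := by omega
    rw [h4] at h
    have h5 : sg p (j + 1) ≤ sp p (j + 1) - 1 := by
      rw [sg_succ, if_pos h]
      exact min_le_right _ _
    have h6 := hw (sp p j)
    rw [← sp_succ (p := p)] at h6
    omega

theorem sp_pos (j : ℕ) : 3 ≤ sp p (j + 1) := by
  have h6 := hw (sp p j)
  rw [← sp_succ (p := p)] at h6
  omega

/-- both facts at once -/
theorem seam_aux (j : ℕ) : LS p j (sg p (j + 1)) ∧ sp p j < sg p (j + 1) := by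
  induction j with
  | zero =>
    have h0 : sp p 1 = p 0 := sp_succ 0
    have h1 : sg p 0 = 0 := by simp [sg]
    have h3 := hw 0
    by_cases hT : LS p 1 (sp p 1 + 1)
    · have h4 : sg p 1 = sp p 1 - 1 := by
        rw [sg_succ, if_pos hT, h1, ← h0]
        exact min_eq_right (by show sp p 1 - 1 ≤ sp p 1; omega)
      refine ⟨?_, ?_⟩
      · rw [h4]
        refine ls_back hp hw ?_
        refine ls_up hp hw hT ?_ ?_
        · have := hw (sp p 1 - 1)
          omega
        · show p (sp p 1 - 1) ≤ sp p 2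
          rw [sp_succ 1]
          exact hp (by omega)
      · rw [h4]
        have : sp p 0 = 0 := rfl
        omega
    · have h4 : sg p 1 = sp p 1 := by
        rw [sg_succ, if_neg hT, h1, ← h0]
      refine ⟨⟨0, ?_⟩, ?_⟩
      · simpa using h4
      · rw [h4]
        have : sp p 0 = 0 := rfl
        omega
  | succ j ih =>
    obtain ⟨ih1, ih2⟩ := ih
    have hle := sg_le hp hw (j + 1)
    -- `p (sg (j+1))` is left-side in row `j + 1`
    have hA : LS p (j + 1) (p (sg p (j + 1))) := by
      obtain ⟨t, ht⟩ := ih1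
      cases t with
      | zero =>
        simp only [Function.iterate_zero, id_eq, Nat.add_zero] at ht
        refine ⟨0, ?_⟩
        simp only [Function.iterate_zero, id_eq, Nat.add_zero]
        rw [ht, ← sp_succ (p := p)]
      | succ t =>
        rw [Function.iterate_succ_apply] at ht
        refine ⟨t, ?_⟩
        rw [ht]
        congr 1
        omega
    have hB : sp p (j + 1) < p (sg p (j + 1)) := by
      by_contra h
      have h := Nat.le_of_not_lt h
      -- then `p (sg (j+1)) = sp (j+1)`, which is not left-side in row `j + 1`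
      have h1 : sp p (j + 1) ≤ p (sg p (j + 1)) := by
        rw [sp_succ]
        exact hp ih2.le
      have h2 : p (sg p (j + 1)) = sp p (j + 1) := le_antisymm h h1
      rw [h2] at hA
      obtain ⟨t, ht⟩ := hA
      rw [iter_sp] at ht
      have h3 : sp p (j + 1 + t + 1) = p (sp p (j + 1 + t)) := sp_succ _
      have h4 := hw (sp p (j + 1 + t))
      omega
    have h6 := hw (sp p (j + 1))
    have h7 : sp p (j + 2) = p (sp p (j + 1)) := sp_succ _
    have h8 : p (sg p (j + 1)) ≤ sp p (j + 2) := by rw [h7]; exact hp hle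
    by_cases hT : LS p (j + 2) (sp p (j + 2) + 1)
    · have h9 : sg p (j + 2) = min (p (sg p (j + 1))) (sp p (j + 2) - 1) := by
        rw [sg_succ, if_pos hT]
      have hC : LS p (j + 1) (sp p (j + 2) - 1) := by
        refine ls_back hp hw ?_
        refine ls_up hp hw hT ?_ ?_
        · have := hw (sp p (j + 2) - 1)
          omega
        · show p (sp p (j + 2) - 1) ≤ sp p (j + 3)
          rw [sp_succ (j + 2)]
          exact hp (by omega)
      refine ⟨?_, ?_⟩
      · show LS p (j + 1) (sg p (j + 2))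
        rw [h9]
        rcases min_choice (p (sg p (j + 1))) (sp p (j + 2) - 1) with h | h
        · rw [h]; exact hA
        · rw [h]; exact hC
      · show sp p (j + 1) < sg p (j + 2)
        omega
    · have h9 : sg p (j + 2) = p (sg p (j + 1)) := by
        rw [sg_succ, if_neg hT]
      refine ⟨?_, ?_⟩
      · show LS p (j + 1) (sg p (j + 2))
        rw [h9]; exact hA
      · show sp p (j + 1) < sg p (j + 2)
        omega

theorem ls_sg (j : ℕ) : LS p j (sg p (j + 1)) := (seam_aux hp hw j).1

theorem sp_lt (j : ℕ) : sp p j < sg p (j + 1) := (seam_aux hp hw j).2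

end C
end Pool.Agent.helper97.TQ6
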